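import Mathlib
import Pool.Agent.Helper34.LF.St

set_option autoImplicit false

/-!
# Project LF, module DG: degenerate triples
-/

open Finset Pool.Agent.Helper34.LF

namespace Pool.Agent.Helper30.LF

/-- a triple with a chosen member `a` is `{a, x, y}` -/
lemma triple {α : Type} [DecidableEq α] {X : Finset α} (h : X.card = 3) {a : α} (ha : a ∈ X) :
    ∃ x y : α, x ≠ y ∧ a ≠ x ∧ a ≠ y ∧ X = {a, x, y} := by
  have h2 : (X.erase a).card = 2 := by rw [card_erase_of_mem ha, h]
  obtain ⟨x, y, hxy, he⟩ := card_eq_two.mp h2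
  have hx : x ∈ X.erase a := by rw [he]; simp
  have hy : y ∈ X.erase a := by rw [he]; simp
  refine ⟨x, y, hxy, fun hh => ?_, fun hh => ?_, ?_⟩
  · exact (ne_of_mem_erase hx) hh.symm
  · exact (ne_of_mem_erase hy) hh.symm
  · rw [← insert_erase ha, he]

theorem pDG : StDG := by
  intro N _
  classical
  constructor
  · have hsub : (((univ : Finset (VA N)).powersetCard 3).filter
        fun X => ∃ a ∈ X, ∑ x ∈ X, x.2 = -a.2) ⊆
        (univ : Finset (VA N × VA N × Fin 4)).image
          (fun p => ({p.1, p.2.1, (p.2.2, -p.1.2 - p.1.2 - p.2.1.2)} : Finset (VA N))) := by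
      intro X hX
      rw [mem_filter, mem_powersetCard] at hX
      obtain ⟨⟨-, hc⟩, a, ha, hs⟩ := hX
      obtain ⟨x, y, hxy, hax, hay, rfl⟩ := triple hc ha
      rw [sum_insert (by simp [hax, hay]), sum_pair hxy] at hs
      rw [mem_image]
      refine ⟨(a, x, y.1), mem_univ _, ?_⟩
      have hy : (y.1, -a.2 - a.2 - x.2) = y := by
        ext1
        · rfl
        · show -a.2 - a.2 - x.2 = y.2
          have : y.2 = (a.2 + (x.2 + y.2)) - a.2 - x.2 := by abel
          rw [this, hs]
      show ({a, x, (y.1, -a.2 - a.2 - x.2)} : Finset (VA N)) = {a, x, y}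
      rw [hy]
    refine (card_le_card hsub).trans (card_image_le.trans (le_of_eq ?_))
    rw [card_univ]
    simp only [Fintype.card_prod, Fintype.card_fin, ZMod.card]
    ring
  · have hsub : (((univ : Finset (VB N)).powersetCard 3).filter
        fun Y => ∃ b ∈ Y, ∑ y ∈ Y, y = -b) ⊆
        (univ : Finset (VB N × VB N)).image
          (fun p => ({p.1, p.2, -p.1 - p.1 - p.2} : Finset (VB N))) := by
      intro Y hY
      rw [mem_filter, mem_powersetCard] at hY
      obtain ⟨⟨-, hc⟩, b, hb, hs⟩ := hY
      obtain ⟨x, y, hxy, hbx, hby, rfl⟩ := triple hc hb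
      rw [sum_insert (by simp [hbx, hby]), sum_pair hxy] at hs
      rw [mem_image]
      refine ⟨(b, x), mem_univ _, ?_⟩
      have hy : -b - b - x = y := by
        have : y = (b + (x + y)) - b - x := by abel
        rw [this, hs]
      show ({b, x, -b - b - x} : Finset (VB N)) = {b, x, y}
      rw [hy]
    refine (card_le_card hsub).trans (card_image_le.trans (le_of_eq ?_))
    rw [card_univ]
    simp only [Fintype.card_prod, Fintype.card_fun, Fintype.card_fin, ZMod.card]
    ring

end Pool.Agent.Helper30.LF
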